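import Pool.Agent.AT5.Stmts1
import Pool.Agent.Helper49_AT3.BRG
import Pool.Agent.Helper62_AT3.CO2

/-! Squad AT5, row BS5: Bessel's inequality for the powers of `u`. -/

open scoped BigOperators

noncomputable section

namespace Pool.Agent.PP.T5.H6

open Pool.Agent.Helper51_AWC Pool.Agent.Helper79_WRA Pool.Agent.PP Pool.Agent.PP.KF
open Pool.Agent.PP.K9 Pool.Agent.PP.K9.H97 Pool.Agent.PP.H75 Pool.Agent.PP.T3 Pool.Agent.PP.T2

attribute [local instance] Ideal.Quotient.field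

theorem fm_ind {α : Type} {S I : Set α} (hSI : S ⊆ I) [Fintype I] (f : α → ℝ)
    [DecidablePred (· ∈ S)] :
    ∑ᶠ x ∈ S, f x = ∑ x : I, (if (x : α) ∈ S then f x else 0) := by
  classical
  rw [← T3.H49.finsum_mem_fintype (fun x : α => if x ∈ S then f x else 0)]
  refine finsum_congr fun x => ?_
  rw [finsum_eq_if, finsum_eq_if]
  by_cases h : x ∈ S
  · simp [h, hSI h]
  · rw [if_neg h]
    split_ifs <;> rfl

theorem cu_pow' {G : Type} [Group G] {ℓ a : ℕ} (hp : ℓ.Prime) {u : G} (ho : orderOf u = ℓ ^ a)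
    {i : ℕ} (hi : ¬ ℓ ∣ i) : Cu (u ^ i) = Cu u := by
  have hcop : Nat.Coprime (orderOf u) i := by
    rw [ho]
    exact Nat.Coprime.pow_left _ ((Nat.Prime.coprime_iff_not_dvd hp).2 hi)
  obtain ⟨i', hi'⟩ := exists_pow_eq_self_of_coprime hcop.symm
  ext x
  rw [Subgroup.mem_centralizer_singleton_iff, Subgroup.mem_centralizer_singleton_iff]
  constructor
  · intro h
    have h1 : Commute x (u ^ i) := h
    have h2 := h1.pow_right i'
    rw [hi'] at h2
    exact h2
  · intro h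
    have h1 : Commute x u := h
    exact h1.pow_right i

/-- `∑ |κ(s)|²` over the characters `κ` of `C` in `b` -/
def ks (M : Ideal (integralClosure ℤ ℂ)) [M.IsMaximal] {G : Type} [Group G] (C : Subgroup G)
    (b : G → FF M) (s : G) : ℝ :=
  ∑ᶠ κ ∈ IrrE M (fun t : C => b t), Complex.normSq (H75.ext0 C κ s)

theorem kr_self (M : Ideal (integralClosure ℤ ℂ)) [M.IsMaximal] {G : Type} [Group G] [Finite G]
    (C : Subgroup G) (b : G → FF M) (s : G) : kr M C b s s = ((ks M C b s : ℝ) : ℂ) := by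
  have hfin : (IrrE M (fun t : C => b t)).Finite := T3.H49.irrE_fin M _
  unfold kr ks
  rw [finsum_mem_eq_finite_toFinset_sum _ hfin, finsum_mem_eq_finite_toFinset_sum _ hfin]
  push_cast
  exact Finset.sum_congr rfl fun κ _ => Complex.mul_conj _

theorem ks_nonneg (M : Ideal (integralClosure ℤ ℂ)) [M.IsMaximal] {G : Type} [Group G] [Finite G]
    (C : Subgroup G) (b : G → FF M) (s : G) : 0 ≤ ks M C b s := by
  have hfin : (IrrE M (fun t : C => b t)).Finite := T3.H49.irrE_fin M _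
  unfold ks
  rw [finsum_mem_eq_finite_toFinset_sum _ hfin]
  exact Finset.sum_nonneg fun κ _ => Complex.normSq_nonneg _

/-- LRK for a subgroup -/
theorem ln_ks (lrk : T3.LrkStmt) {ℓ : ℕ} [Fact ℓ.Prime] (M : Ideal (integralClosure ℤ ℂ))
    [M.IsMaximal] (hM : (ℓ : integralClosure ℤ ℂ) ∈ M) {G : Type} [Group G] [Finite G]
    (C : Subgroup G) {b : G → FF M} (hb : Ix C b) :
    (ln (fun t : C => b t) : ℝ) =
      (Nat.card C : ℝ)⁻¹ * ∑ᶠ s ∈ {s : G | s ∈ C ∧ Reg ℓ s}, ks M C b s := by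
  have h1 := lrk ℓ M hM C (fun t : C => b t) hb.idem
  have hS : {s : G | s ∈ C ∧ Reg ℓ s} = (Subtype.val : C → G) '' {s : C | Reg ℓ s} := by
    ext s
    constructor
    · rintro ⟨h2, h3⟩
      refine ⟨⟨s, h2⟩, ?_, rfl⟩
      change (orderOf (⟨s, h2⟩ : C)).Coprime ℓ
      rw [← Subgroup.orderOf_coe]
      exact h3
    · rintro ⟨t, ht, rfl⟩
      exact ⟨t.2, T3.H62.reg_coe ht⟩
  have h2 : ∑ᶠ (s : C) (_ : Reg ℓ s), ∑ᶠ χ ∈ IrrE M (fun t : C => b t),
      χ s * starRingEnd ℂ (χ s) =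
      ((∑ᶠ s ∈ {s : G | s ∈ C ∧ Reg ℓ s}, ks M C b s : ℝ) : ℂ) := by
    rw [hS, finsum_mem_image (Subtype.val_injective.injOn)]
    have hfin : {s : C | Reg ℓ s}.Finite := Set.toFinite _
    have h3 : ∑ᶠ (s : C) (_ : Reg ℓ s), ∑ᶠ χ ∈ IrrE M (fun t : C => b t),
        χ s * starRingEnd ℂ (χ s) = ∑ᶠ s ∈ {s : C | Reg ℓ s}, (ks M C b s : ℂ) := by
      refine finsum_mem_congr (s := {s : C | Reg ℓ s}) rfl fun s _ => ?_
      rw [← kr_self]
      unfold kr
      refine finsum_mem_congr rfl fun κ _ => ?_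
      have h4 : H75.ext0 C κ (s : G) = κ s := by
        rw [H75.ext0, dif_pos s.2]
      rw [h4]
    rw [h3, finsum_mem_eq_finite_toFinset_sum _ hfin, finsum_mem_eq_finite_toFinset_sum _ hfin]
    push_cast
    rfl
  rw [h2] at h1
  apply Complex.ofReal_injective
  rw [Complex.ofReal_mul, Complex.ofReal_inv, Complex.ofReal_natCast, Complex.ofReal_natCast]
  exact h1

theorem bs5 (oj5 : Oj5Stmt) (co3 : Co3Stmt) (vj5 : Vj5Stmt) (bes : T3.BesStmt)
    (lrk : T3.LrkStmt) : Bs5Stmt := by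
  intro ℓ hℓ M _ hM G _ _ N hN e V u b hLb a hea hou j hj
  classical
  have hp : ℓ.Prime := hℓ.out
  have hep : 0 < ep ℓ := by
    unfold ep
    split_ifs <;> norm_num
  have : Finite (Irr G) := (T3.H49.irr_fin G).to_subtype
  have : Fintype (Irr G) := Fintype.ofFinite _
  have hua : u ^ ℓ ^ a = 1 := by rw [← hou]; exact pow_orderOf_eq_one u
  have hEl : ∀ i : ℕ, El ℓ (u ^ i) := by
    intro i
    refine ⟨a, ?_⟩
    rw [← pow_mul, mul_comm, pow_mul, hua, one_pow]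
  have hElu : El ℓ u := ⟨a, hua⟩
  obtain ⟨q, hq⟩ : ∃ q, q = ℓ ^ ep ℓ := ⟨_, rfl⟩
  have hq0 : 0 < q := by rw [hq]; exact pow_pos hp.pos _
  have hlq : ℓ ∣ q := by rw [hq]; exact dvd_pow_self ℓ hep.ne'
  -- the exponents
  let ex : Fin (ℓ ^ (a - ep ℓ)) → ℕ := fun k => j % q + q * k
  have hex2 : ∀ k, j ≡ ex k [MOD q] := by
    intro k
    change j % q = (j % q + q * k) % q
    rw [Nat.add_mul_mod_self_left, Nat.mod_mod]
  have hex1 : ∀ k, ¬ ℓ ∣ ex k := by
    intro k h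
    apply hj
    have h1 := (hex2 k).of_dvd hlq
    exact (h1.dvd_iff (dvd_refl ℓ)).2 h
  have hlt : ∀ k, ex k < ℓ ^ a := by
    intro k
    have h1 : j % q < q := Nat.mod_lt _ hq0
    have h2 : (k : ℕ) + 1 ≤ ℓ ^ (a - ep ℓ) := k.2
    have h3 : q * ((k : ℕ) + 1) ≤ q * ℓ ^ (a - ep ℓ) := Nat.mul_le_mul_left _ h2
    have h4 : q * ℓ ^ (a - ep ℓ) = ℓ ^ a := by
      rw [hq, ← pow_add]
      congr 1
      omega
    rw [h4, mul_add, mul_one] at h3
    change j % q + q * (k : ℕ) < ℓ ^ a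
    omega
  have hex3 : ∀ k k', k ≠ k' → u ^ ex k ≠ u ^ ex k' := by
    intro k k' hne h
    apply hne
    have h1 : ex k = ex k' := by
      refine pow_injOn_Iio_orderOf ?_ ?_ h
      · rw [Set.mem_Iio, hou]
        exact hlt k
      · rw [Set.mem_Iio, hou]
        exact hlt k'
    have h2 : q * (k : ℕ) = q * (k' : ℕ) := by
      have : j % q + q * (k : ℕ) = j % q + q * (k' : ℕ) := h1
      omega
    exact Fin.ext (Nat.eq_of_mul_eq_mul_left hq0 h2)
  have hPI : Rf M N e ⊆ Irr G := fun χ h => h.1.1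
  -- Bessel for one `s`
  have key : ∀ s ∈ Cu u, Reg ℓ s → (ℓ : ℝ) ^ (a - ep ℓ) *
      ∑ᶠ χ ∈ Rf M N e, Complex.normSq (gv M (Cu u) (u ^ j * s) b χ) ≤ ks M (Cu u) b s := by
    intro s hs hsr
    let v : Fin (ℓ ^ (a - ep ℓ)) → Irr G → ℂ := fun k χ => gv M (Cu u) (u ^ ex k * s) b χ
    have hnorm : ∀ k, ∑ χ, v k χ * starRingEnd ℂ (v k χ) = ((ks M (Cu u) b s : ℝ) : ℂ) := by
      intro k
      have hC := cu_pow' hp hou (hex1 k)
      have h1 := co3 ℓ M hM G (u ^ ex k) (hEl _) b (by rw [hC]; exact hLb.bx.ix) s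
        (by rw [hC]; exact hs) hsr s (by rw [hC]; exact hs) hsr
      rw [hC, T3.H49.finsum_mem_fintype, kr_self] at h1
      exact h1
    have horth : ∀ k k', k ≠ k' → ∑ χ, v k χ * starRingEnd ℂ (v k' χ) = 0 := by
      intro k k' hne
      have h1 := oj5 ℓ M hM G e V u b hLb a hea hou (ex k) (ex k') (hex1 k)
        (by rw [← hq]; exact (hex2 k).symm.trans (hex2 k')) (hex3 k k' hne) s hs hsr
      rw [T3.H49.finsum_mem_fintype] at h1
      exact h1
    have hks := ks_nonneg M (Cu u) b s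
    have hrow : ∀ k, ∑ k', ‖∑ χ, v k χ * starRingEnd ℂ (v k' χ)‖ ≤ ks M (Cu u) b s := by
      intro k
      rw [Finset.sum_eq_single k]
      · rw [hnorm k, Complex.norm_real, Real.norm_of_nonneg hks]
      · intro k' _ hne
        rw [horth k k' (Ne.symm hne), norm_zero]
      · intro h
        exact absurd (Finset.mem_univ k) h
    let w : (G → ℂ) → ℂ := fun χ => gv M (Cu u) (u ^ j * s) b χ
    let t : Irr G → ℂ := fun χ => if (χ : G → ℂ) ∈ Rf M N e then starRingEnd ℂ (w χ) else 0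
    obtain ⟨x, hx⟩ : ∃ x : ℝ, x = ∑ᶠ χ ∈ Rf M N e, Complex.normSq (w χ) := ⟨_, rfl⟩
    have hx1 : x = ∑ χ : Irr G,
        (if (χ : G → ℂ) ∈ Rf M N e then Complex.normSq (w χ) else 0) := by
      rw [hx]
      exact fm_ind hPI _
    have hx0 : 0 ≤ x := by
      rw [hx1]
      refine Finset.sum_nonneg fun χ _ => ?_
      split_ifs
      · exact Complex.normSq_nonneg _
      · exact le_rfl
    have hsv : ∀ k, ∑ χ, t χ * v k χ = (x : ℂ) := by
      intro k
      rw [hx1]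
      push_cast
      refine Finset.sum_congr rfl fun χ _ => ?_
      by_cases h : (χ : G → ℂ) ∈ Rf M N e
      · have h1 : gv M (Cu u) (u ^ j * s) b χ = gv M (Cu u) (u ^ ex k * s) b χ :=
          vj5 ℓ M hM G N hN u hElu b hLb.bx.ix χ h.1.1 h.2 s hs hsr j (ex k) hj
            (by rw [← hq]; exact hex2 k)
        have h2 : v k χ = w χ := by
          simp only [v, w]
          rw [h1]
        rw [h2]
        simp only [t, if_pos h]
        rw [mul_comm, Complex.mul_conj]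
      · simp only [t, if_neg h]
        simp
    have hss : ∑ χ, Complex.normSq (t χ) = x := by
      rw [hx1]
      refine Finset.sum_congr rfl fun χ _ => ?_
      by_cases h : (χ : G → ℂ) ∈ Rf M N e
      · simp only [t, if_pos h]
        rw [Complex.normSq_conj]
      · simp only [t, if_neg h]
        simp
    have hB := bes (Fin (ℓ ^ (a - ep ℓ))) (Irr G) v _ hks hrow t
    rw [hss] at hB
    simp only [hsv, Complex.normSq_ofReal] at hB
    rw [Finset.sum_const, Finset.card_univ, Fintype.card_fin, nsmul_eq_mul] at hB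
    change (ℓ : ℝ) ^ (a - ep ℓ) * ∑ᶠ χ ∈ Rf M N e, Complex.normSq (w χ) ≤ ks M (Cu u) b s
    rw [← hx]
    push_cast at hB
    rcases hx0.eq_or_lt with h | h
    · rw [← h, mul_zero]
      exact hks
    · have h1 : ((ℓ : ℝ) ^ (a - ep ℓ) * x) * x ≤ ks M (Cu u) b s * x := by
        calc ((ℓ : ℝ) ^ (a - ep ℓ) * x) * x = (ℓ : ℝ) ^ (a - ep ℓ) * (x * x) := by ring
          _ ≤ _ := hB
      exact le_of_mul_le_mul_right h1 h
  -- the sum over `s`
  have hR : (Rf M N e).Finite := (T3.H49.irrE_fin M e).subset fun _ h => h.1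
  have hS : {s : G | s ∈ Cu u ∧ Reg ℓ s}.Finite := Set.toFinite _
  rw [ln_ks lrk M hM (Cu u) hLb.bx.ix, finsum_mem_eq_finite_toFinset_sum _ hS,
    finsum_mem_eq_finite_toFinset_sum _ hR]
  have h1 : ∀ χ, nm M ℓ (Cu u) (u ^ j) b χ = (Nat.card (Cu u) : ℝ)⁻¹ *
      ∑ s ∈ hS.toFinset, Complex.normSq (gv M (Cu u) (u ^ j * s) b χ) := by
    intro χ
    unfold nm
    rw [← finsum_mem_eq_finite_toFinset_sum _ hS]
    rfl
  simp only [h1]
  rw [← Finset.mul_sum, Finset.sum_comm, ← mul_assoc, mul_comm ((ℓ : ℝ) ^ (a - ep ℓ)), mul_assoc,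
    Finset.mul_sum]
  refine mul_le_mul_of_nonneg_left (Finset.sum_le_sum fun s hs => ?_) (by positivity)
  have hs' : s ∈ {s : G | s ∈ Cu u ∧ Reg ℓ s} := by simpa using hs
  have h2 := key s hs'.1 hs'.2
  rw [finsum_mem_eq_finite_toFinset_sum _ hR] at h2
  exact h2

end Pool.Agent.PP.T5.H6
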