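import Pool.Agent.AT5.Stmts1
import Pool.Agent.Helper60_AT2.ORJ

/-! Squad AT5, row OJ5: orthogonality for the powers of `u`. -/

open scoped BigOperators

noncomputable section

namespace Pool.Agent.PP.T5.H6

open Pool.Agent.Helper51_AWC Pool.Agent.Helper79_WRA Pool.Agent.PP Pool.Agent.PP.KF
open Pool.Agent.PP.K9 Pool.Agent.PP.K9.H97 Pool.Agent.PP.H75 Pool.Agent.PP.T3 Pool.Agent.PP.T2
open Pool.Agent.PP.T2.H60

attribute [local instance] Ideal.Quotient.field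

theorem pow_one_mod {ℓ c : ℕ} (k : ℕ) (hc : c ≡ 1 [MOD ℓ]) : c ^ ℓ ^ k ≡ 1 [MOD ℓ ^ k] := by
  have h3 : ((ℓ : ℤ)) ∣ (c : ℤ) - 1 := by
    have := hc.symm.dvd
    rw [Nat.cast_one] at this
    exact this
  have h4 := dvd_sub_pow_of_dvd_sub (R := ℤ) (p := ℓ) h3 k
  rw [one_pow] at h4
  have h5 : ((ℓ ^ k : ℕ) : ℤ) ∣ ((c ^ ℓ ^ k : ℕ) : ℤ) - ((1 : ℕ) : ℤ) := by
    push_cast
    exact (pow_dvd_pow _ (Nat.le_succ k)).trans h4
  have h6 : 1 ≡ c ^ ℓ ^ k [MOD ℓ ^ k] := (Nat.modEq_iff_dvd).2 h5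
  exact h6.symm

/-- an inverse modulo `ℓ ^ a` -/
theorem inv_mod {ℓ : ℕ} (hp : ℓ.Prime) {i : ℕ} (hi : ¬ ℓ ∣ i) (a : ℕ) :
    ∃ i', i * i' ≡ 1 [MOD ℓ ^ a] := by
  rcases Nat.eq_zero_or_pos a with h0 | h0
  · refine ⟨0, ?_⟩
    rw [h0, pow_zero]
    exact Nat.modEq_one
  have hcop : Nat.Coprime i (ℓ ^ a) :=
    Nat.Coprime.pow_right _ ((Nat.Prime.coprime_iff_not_dvd hp).2 hi).symm
  obtain ⟨i', hi'⟩ := Nat.exists_mul_mod_eq_one_of_coprime hcop (Nat.one_lt_pow h0.ne' hp.one_lt)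
  refine ⟨i', ?_⟩
  unfold Nat.ModEq
  rw [hi'.2, Nat.mod_eq_of_lt (Nat.one_lt_pow h0.ne' hp.one_lt)]

theorem pow_inv_pow {G : Type} [Group G] {ℓ a : ℕ} {u : G} (ho : orderOf u = ℓ ^ a) {i i' : ℕ}
    (h : i * i' ≡ 1 [MOD ℓ ^ a]) : (u ^ i) ^ i' = u := by
  have : u ^ (i * i') = u ^ 1 := pow_eq_pow_iff_modEq.2 (by rw [ho]; exact h)
  rw [← pow_mul, this, pow_one]

theorem cu_pow {G : Type} [Group G] {ℓ a : ℕ} (hp : ℓ.Prime) {u : G} (ho : orderOf u = ℓ ^ a)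
    {i : ℕ} (hi : ¬ ℓ ∣ i) : Cu (u ^ i) = Cu u := by
  obtain ⟨i', hi'⟩ := inv_mod hp hi a
  have hu := pow_inv_pow ho hi'
  ext x
  rw [Subgroup.mem_centralizer_singleton_iff, Subgroup.mem_centralizer_singleton_iff]
  constructor
  · intro h
    have h1 : Commute x (u ^ i) := h
    have h2 := h1.pow_right i'
    rw [hu] at h2
    exact h2
  · intro h
    have h1 : Commute x u := h
    exact h1.pow_right i

theorem oj5 (co5 : Co5Stmt) (inc : IncStmt) : Oj5Stmt := by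
  intro ℓ _ M _ hM G _ _ e V u b hLb a hea hord j j' hj hjj hne s hs hsr
  have hp : ℓ.Prime := Fact.out
  have hep : 0 < ep ℓ := by
    unfold ep
    split_ifs <;> norm_num
  have hjl : j ≡ j' [MOD ℓ] := hjj.of_dvd (dvd_pow_self ℓ hep.ne')
  have hj' : ¬ ℓ ∣ j' := by
    intro h
    exact hj ((hjl.dvd_iff (dvd_refl ℓ)).2 h)
  have hC := cu_pow hp hord hj
  have hC' := cu_pow hp hord hj'
  have hua : u ^ ℓ ^ a = 1 := by rw [← hord]; exact pow_orderOf_eq_one u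
  have hEl : ∀ i : ℕ, El ℓ (u ^ i) := by
    intro i
    refine ⟨a, ?_⟩
    rw [← pow_mul, mul_comm, pow_mul, hua, one_pow]
  have h1 := co5 ℓ M hM G (u ^ j) (u ^ j') (hEl j) (hEl j') b b (by rw [hC]; exact hLb.bx.ix)
    (by rw [hC']; exact hLb.bx.ix) ?_ s (by rw [hC]; exact hs) hsr s (by rw [hC']; exact hs) hsr
  · rw [hC, hC'] at h1
    exact h1
  intro x hx
  have hxn : x ∈ Subgroup.normalizer ((Cu u : Subgroup G) : Set G) := by
    have h2 : ∀ z, z ∈ Cu u → x * z * x⁻¹ ∈ Cu u := by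
      intro z hz
      rw [← hC'] at hz
      rw [← hC, ← hx]
      have h3 := Subgroup.mem_centralizer_singleton_iff.1 hz
      rw [Subgroup.mem_centralizer_singleton_iff]
      calc x * z * x⁻¹ * (x * u ^ j' * x⁻¹) = x * (z * u ^ j') * x⁻¹ := by group
        _ = x * (u ^ j' * z) * x⁻¹ := by rw [h3]
        _ = _ := by group
    have h3 : ∀ z, x * z * x⁻¹ ∈ Cu u → z ∈ Cu u := by
      intro z hz
      rw [← hC, ← hx] at hz
      rw [← hC']
      have h3 := Subgroup.mem_centralizer_singleton_iff.1 hz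
      rw [Subgroup.mem_centralizer_singleton_iff]
      have h4 : x * (z * u ^ j') * x⁻¹ = x * (u ^ j' * z) * x⁻¹ := by
        calc x * (z * u ^ j') * x⁻¹ = x * z * x⁻¹ * (x * u ^ j' * x⁻¹) := by group
          _ = _ := h3
          _ = x * (u ^ j' * z) * x⁻¹ := by group
      exact mul_left_cancel (mul_right_cancel h4)
    rw [Subgroup.mem_normalizer_iff]
    exact fun z => ⟨h2 z, h3 z⟩
  rcases hLb.bx.dich (hLb.bx.cj hxn) with h2 | h2
  · exfalso
    apply hne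
    -- `x u x⁻¹ = u ^ c`
    obtain ⟨i, hi⟩ := inv_mod hp hj' a
    have hxu : x * u * x⁻¹ = u ^ (j * i) := by
      have h3 : x * u * x⁻¹ = (x * u ^ j' * x⁻¹) ^ i := by
        rw [conj_pow, pow_inv_pow hord hi]
      rw [h3, hx, ← pow_mul]
    have hc1 : j * i ≡ 1 [MOD ℓ] := by
      have ha0 : a ≠ 0 := by omega
      have h7 : j' * i ≡ 1 [MOD ℓ] := hi.of_dvd (dvd_pow_self ℓ ha0)
      exact (hjl.mul_right i).trans h7
    have hxa : x ^ ℓ ^ a ∈ Cu u := by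
      have h4 := conj_pow_pow hxu (ℓ ^ a)
      have h5 : u ^ (j * i) ^ ℓ ^ a = u ^ 1 :=
        pow_eq_pow_iff_modEq.2 (by rw [hord]; exact pow_one_mod a hc1)
      rw [h5, pow_one] at h4
      rw [Subgroup.mem_centralizer_singleton_iff]
      calc x ^ ℓ ^ a * u = (x ^ ℓ ^ a * u * (x ^ ℓ ^ a)⁻¹) * x ^ ℓ ^ a := by group
        _ = u * x ^ ℓ ^ a := by rw [h4]
    have hxz : x ∈ Subgroup.normalizer (Subgroup.zpowers u : Set G) := by
      obtain ⟨i2, hi2⟩ := inv_mod hp hj a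
      have hfw : ∀ z ∈ Subgroup.zpowers u, x * z * x⁻¹ ∈ Subgroup.zpowers u := by
        intro z hz
        obtain ⟨n, rfl⟩ := Subgroup.mem_zpowers_iff.1 hz
        rw [← conj_zpow, hxu]
        exact Subgroup.zpow_mem _ (Subgroup.pow_mem _ (Subgroup.mem_zpowers u) _) _
      have hbk' : x⁻¹ * u * x ∈ Subgroup.zpowers u := by
        have h4 : x⁻¹ * u ^ j * x = u ^ j' := by
          rw [← hx]; group
        have h5 : x⁻¹ * u * x = (x⁻¹ * u ^ j * x) ^ i2 := by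
          have h6 : x⁻¹ * u ^ j * x = x⁻¹ * u ^ j * x⁻¹⁻¹ := by rw [inv_inv]
          rw [h6, conj_pow, pow_inv_pow hord hi2, inv_inv]
        rw [h5, h4]
        exact Subgroup.pow_mem _ (Subgroup.pow_mem _ (Subgroup.mem_zpowers u) _) _
      have hbk : ∀ z ∈ Subgroup.zpowers u, x⁻¹ * z * x ∈ Subgroup.zpowers u := by
        intro z hz
        obtain ⟨n, rfl⟩ := Subgroup.mem_zpowers_iff.1 hz
        have h6 : x⁻¹ * u ^ n * x = (x⁻¹ * u * x) ^ n := by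
          have h7 : x⁻¹ * u * x = x⁻¹ * u * x⁻¹⁻¹ := by rw [inv_inv]
          rw [h7, conj_zpow, inv_inv]
        rw [h6]
        exact Subgroup.zpow_mem _ hbk' _
      rw [Subgroup.mem_normalizer_iff]
      intro z
      refine ⟨fun h => hfw z h, fun h => ?_⟩
      have h8 := hbk _ h
      have h9 : x⁻¹ * (x * z * x⁻¹) * x = z := by group
      rwa [h9] at h8
    have hxC := inc ℓ M hM G e V u b hLb x hxz h2.symm a hxa
    have h10 : Commute x u := Subgroup.mem_centralizer_singleton_iff.1 hxC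
    have h11 := (h10.pow_right j').eq
    rw [← hx, h11, mul_assoc, mul_inv_cancel, mul_one]
  · exact h2

end Pool.Agent.PP.T5.H6
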